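import Mathlib

/-!
# Derivations of multilinear forms
-/

set_option autoImplicit false

namespace Run7.h293.SQ

open Module Finset

variable {K Y : Type*} [Field K] [AddCommGroup Y] [Module K Y] {k : ℕ}

/-- The sum of the forms which are obtained from `φ` by the application of `X` to one of the
arguments. -/
noncomputable def der (X : End K Y) (φ : MultilinearMap K (fun _ : Fin k => Y) K) :
    MultilinearMap K (fun _ : Fin k => Y) K :=
  ∑ i, φ.compLinearMap (Function.update (fun _ => LinearMap.id) i X)

theorem der_apply (X : End K Y) (φ : MultilinearMap K (fun _ : Fin k => Y) K) (x : Fin k → Y) :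
    der X φ x = ∑ i, φ (Function.update x i (X (x i))) := by
  unfold der
  rw [MultilinearMap.sum_apply]
  refine Finset.sum_congr rfl fun i _ => ?_
  rw [MultilinearMap.compLinearMap_apply]
  congr 1
  funext j
  by_cases h : j = i
  · subst h
    rw [Function.update_self, Function.update_self]
  · rw [Function.update_of_ne h, Function.update_of_ne h]
    rfl

theorem der_add (X X' : End K Y) (φ : MultilinearMap K (fun _ : Fin k => Y) K) :
    der (X + X') φ = der X φ + der X' φ := by
  ext x
  rw [MultilinearMap.add_apply, der_apply, der_apply, der_apply, ← Finset.sum_add_distrib]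
  refine Finset.sum_congr rfl fun i _ => ?_
  rw [LinearMap.add_apply, MultilinearMap.map_update_add]

theorem der_smul (c : K) (X : End K Y) (φ : MultilinearMap K (fun _ : Fin k => Y) K) :
    der (c • X) φ = c • der X φ := by
  ext x
  rw [MultilinearMap.smul_apply, der_apply, der_apply, Finset.smul_sum]
  refine Finset.sum_congr rfl fun i _ => ?_
  rw [LinearMap.smul_apply, MultilinearMap.map_update_smul]

theorem der_map_zero (X : End K Y) :
    der X (0 : MultilinearMap K (fun _ : Fin k => Y) K) = 0 := by
  ext x
  rw [der_apply]
  simp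

theorem der_bracket (X X' : End K Y) (φ : MultilinearMap K (fun _ : Fin k => Y) K) :
    der (X * X' - X' * X) φ = der X' (der X φ) - der X (der X' φ) := by
  have key : ∀ (A B : End K Y) (x : Fin k → Y), der B (der A φ) x =
      ∑ j, ∑ i ∈ univ.erase j, φ (Function.update (Function.update x j (B (x j))) i (A (x i))) +
        ∑ j, φ (Function.update x j (A (B (x j)))) := by
    intro A B x
    rw [der_apply, ← Finset.sum_add_distrib]
    refine Finset.sum_congr rfl fun j _ => ?_
    rw [der_apply, ← Finset.sum_erase_add _ _ (Finset.mem_univ j)]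
    congr 1
    · refine Finset.sum_congr rfl fun i hi => ?_
      rw [Function.update_of_ne (Finset.ne_of_mem_erase hi)]
    · rw [Function.update_self, Function.update_idem]
  have hsym : ∀ (A B : End K Y) (x : Fin k → Y),
      ∑ j, ∑ i ∈ univ.erase j, φ (Function.update (Function.update x j (B (x j))) i (A (x i))) =
      ∑ j, ∑ i ∈ univ.erase j, φ (Function.update (Function.update x j (A (x j))) i (B (x i))) := by
    intro A B x
    rw [Finset.sum_sigma', Finset.sum_sigma']
    refine Finset.sum_bij' (fun s _ => ⟨s.2, s.1⟩) (fun s _ => ⟨s.2, s.1⟩) ?_ ?_ ?_ ?_ ?_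
    · rintro ⟨j, i⟩ h
      simp only [Finset.mem_sigma, Finset.mem_univ, Finset.mem_erase, true_and, and_true] at h ⊢
      exact fun h' => h h'.symm
    · rintro ⟨j, i⟩ h
      simp only [Finset.mem_sigma, Finset.mem_univ, Finset.mem_erase, true_and, and_true] at h ⊢
      exact fun h' => h h'.symm
    · rintro ⟨j, i⟩ _
      rfl
    · rintro ⟨j, i⟩ _
      rfl
    · rintro ⟨j, i⟩ h
      simp only [Finset.mem_sigma, Finset.mem_univ, Finset.mem_erase, true_and, and_true] at h
      dsimp only
      rw [Function.update_comm h]
  ext x
  rw [MultilinearMap.sub_apply, key, key, hsym X X', add_sub_add_left_eq_sub, der_apply,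
    ← Finset.sum_sub_distrib]
  refine Finset.sum_congr rfl fun i _ => ?_
  rw [LinearMap.sub_apply, MultilinearMap.map_update_sub]
  rfl

/-- The endomorphisms which kill the form `φ`. -/
def killer (φ : MultilinearMap K (fun _ : Fin k => Y) K) : Submodule K (End K Y) where
  carrier := {X | der X φ = 0}
  add_mem' := fun {a b} ha hb => by
    change der (a + b) φ = 0
    rw [der_add, show der a φ = 0 from ha, show der b φ = 0 from hb, add_zero]
  zero_mem' := by
    change der 0 φ = 0
    have := der_smul (0 : K) (0 : End K Y) φ
    rw [zero_smul, zero_smul] at this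
    exact this
  smul_mem' := fun c {a} ha => by
    change der (c • a) φ = 0
    rw [der_smul, show der a φ = 0 from ha, smul_zero]

theorem killer_bracket {φ : MultilinearMap K (fun _ : Fin k => Y) K} {X X' : End K Y}
    (h : X ∈ killer φ) (h' : X' ∈ killer φ) : X * X' - X' * X ∈ killer φ := by
  change der _ φ = 0
  rw [der_bracket, show der X φ = 0 from h, show der X' φ = 0 from h', der_map_zero, der_map_zero,
    sub_zero]

/-- If a form is invariant under `1 + n X` for all natural numbers `n` it is killed by `X`. -/
theorem killer_of_invariant [CharZero K] {φ : MultilinearMap K (fun _ : Fin k => Y) K}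
    {X : End K Y} (h : ∀ (n : ℕ) (x : Fin k → Y), φ (fun i => (n : K) • X (x i) + x i) = φ x) :
    X ∈ killer φ := by
  classical
  change der X φ = 0
  ext x
  rw [MultilinearMap.zero_apply]
  let P : Polynomial K := ∑ s : Finset (Fin k),
    Polynomial.C (φ (s.piecewise (fun i => X (x i)) x)) * Polynomial.X ^ s.card
  have hP : ∀ t : K, P.eval t = φ (fun i => t • X (x i) + x i) := by
    intro t
    have h1 := φ.map_add_univ (fun i => t • X (x i)) x
    change φ (fun i => t • X (x i) + x i) = _ at h1
    rw [h1, Polynomial.eval_finsetSum]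
    refine Finset.sum_congr rfl fun s _ => ?_
    rw [Polynomial.eval_mul, Polynomial.eval_C, Polynomial.eval_pow, Polynomial.eval_X]
    have h2 := φ.map_piecewise_smul (fun _ => t) (s.piecewise (fun i => X (x i)) x) s
    have h3 : (s.piecewise (fun i => t • s.piecewise (fun i => X (x i)) x i)
        (s.piecewise (fun i => X (x i)) x)) = s.piecewise (fun i => t • X (x i)) x := by
      funext i
      by_cases hi : i ∈ s
      · rw [Finset.piecewise_eq_of_mem _ _ _ hi, Finset.piecewise_eq_of_mem _ _ _ hi,
          Finset.piecewise_eq_of_mem _ _ _ hi]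
      · rw [Finset.piecewise_eq_of_notMem _ _ _ hi, Finset.piecewise_eq_of_notMem _ _ _ hi,
          Finset.piecewise_eq_of_notMem _ _ _ hi]
    rw [h3, Finset.prod_const] at h2
    rw [h2, smul_eq_mul, mul_comm]
  have h1 : P = Polynomial.C (φ x) := by
    have h2 : P - Polynomial.C (φ x) = 0 := by
      apply Polynomial.eq_zero_of_infinite_isRoot
      refine Set.Infinite.mono (s := Set.range (fun n : ℕ => (n : K))) ?_
        (Set.infinite_range_of_injective Nat.cast_injective)
      rintro _ ⟨n, rfl⟩
      change Polynomial.IsRoot _ _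
      rw [Polynomial.IsRoot.def, Polynomial.eval_sub, Polynomial.eval_C, hP, h, sub_self]
    exact sub_eq_zero.1 h2
  have h2 : P.coeff 1 = 0 := by
    rw [h1, Polynomial.coeff_C]
    simp
  have h3 : P.coeff 1 = der X φ x := by
    rw [der_apply, Polynomial.finsetSum_coeff]
    have h4 : ∀ s : Finset (Fin k), (Polynomial.C (φ (s.piecewise (fun i => X (x i)) x)) *
        Polynomial.X ^ s.card).coeff 1 =
        if s.card = 1 then φ (s.piecewise (fun i => X (x i)) x) else 0 := by
      intro s
      rw [Polynomial.coeff_C_mul, Polynomial.coeff_X_pow]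
      by_cases hs : s.card = 1
      · rw [if_pos hs, if_pos hs.symm, mul_one]
      · rw [if_neg hs, if_neg (fun h => hs h.symm), mul_zero]
    rw [Finset.sum_congr rfl fun s _ => h4 s, ← Finset.sum_filter]
    symm
    refine Finset.sum_bij (fun i _ => {i}) ?_ ?_ ?_ ?_
    · intro i _
      rw [Finset.mem_filter]
      exact ⟨Finset.mem_univ _, Finset.card_singleton i⟩
    · intro i _ j _ hij
      exact Finset.singleton_injective hij
    · intro s hs
      rw [Finset.mem_filter, Finset.card_eq_one] at hs
      obtain ⟨i, hi⟩ := hs.2
      exact ⟨i, Finset.mem_univ _, hi.symm⟩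
    · intro i _
      rw [Finset.piecewise_singleton]
  rw [← h3, h2]

end Run7.h293.SQ
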