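import Mathlib

set_option autoImplicit false

namespace Run7.h293.SQ

/-- The endomorphism `x ↦ ω x v • w + ω x w • v`. -/
def sq {K Y : Type*} [Field K] [AddCommGroup Y] [Module K Y] (ω : Y →ₗ[K] Y →ₗ[K] K) (v w : Y) :
    Module.End K Y := (ω.flip v).smulRight w + (ω.flip w).smulRight v

end Run7.h293.SQ
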