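import Pool.Agent.Run7.h293.SQ.A
import Pool.Agent.Run7.h293.SQ.Sq

/-!
# Lie algebras generated by transvections
-/

set_option autoImplicit false

namespace Run7.h293.SQ

open Module

variable {K Y : Type*} [Field K] [AddCommGroup Y] [Module K Y] (ω : Y →ₗ[K] Y →ₗ[K] K)

theorem sq_apply (v w x : Y) : sq ω v w x = ω x v • w + ω x w • v := rfl

theorem sq_add_left (v v' w : Y) : sq ω (v + v') w = sq ω v w + sq ω v' w := by
  refine LinearMap.ext fun x => ?_
  rw [LinearMap.add_apply, sq_apply, sq_apply, sq_apply, map_add, add_smul, smul_add]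
  abel

theorem sq_smul_left (c : K) (v w : Y) : sq ω (c • v) w = c • sq ω v w := by
  refine LinearMap.ext fun x => ?_
  rw [LinearMap.smul_apply, sq_apply, sq_apply, map_smul, smul_eq_mul, mul_smul, smul_add,
    smul_comm (ω x w) c v]

theorem sq_comm (v w : Y) : sq ω v w = sq ω w v := by
  refine LinearMap.ext fun x => ?_
  rw [sq_apply, sq_apply, add_comm]

variable {ω} (halt : ∀ x, ω x x = 0)

include halt in
theorem neg_symm (x y : Y) : ω x y = - ω y x := by
  have h := halt (x + y)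
  simp only [map_add, LinearMap.add_apply, halt, zero_add, add_zero] at h
  rw [add_comm] at h
  exact eq_neg_of_add_eq_zero_left (by rw [add_comm] at h; first | exact h | (rw [add_comm]; exact h))

include halt in
theorem bracket_sq (v w u : Y) : sq ω v w * sq ω u u - sq ω u u * sq ω v w =
    (2 * ω u v) • sq ω u w + (2 * ω u w) • sq ω u v := by
  refine LinearMap.ext fun x => ?_
  rw [LinearMap.sub_apply, Module.End.mul_apply, Module.End.mul_apply, LinearMap.add_apply,
    LinearMap.smul_apply, LinearMap.smul_apply]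
  simp only [sq_apply, map_add, map_smul]
  rw [neg_symm halt w u, neg_symm halt v u]
  module

variable {𝔤 : Submodule K (End K Y)} (hL : ∀ X ∈ 𝔤, ∀ X' ∈ 𝔤, X * X' - X' * X ∈ 𝔤)

include halt hL in
/-- adjacent vectors -/
theorem sq_adj [CharZero K] {v w : Y} (hv : sq ω v v ∈ 𝔤) (hw : sq ω w w ∈ 𝔤) (h : ω v w ≠ 0) :
    sq ω v w ∈ 𝔤 := by
  have h1 := hL _ hw _ hv
  rw [bracket_sq halt] at h1
  rw [← add_smul] at h1
  have h2 : (2 * ω v w + 2 * ω v w) ≠ 0 := by
    have : (2 * ω v w + 2 * ω v w) = 4 * ω v w := by ring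
    rw [this]
    exact mul_ne_zero (by norm_num) h
  exact (Submodule.smul_mem_iff _ h2).1 h1

include halt hL in
/-- one step -/
theorem sq_step [CharZero K] {v w w' : Y} (hw : sq ω w w ∈ 𝔤) (hw' : sq ω w' w' ∈ 𝔤)
    (h : ω w w' ≠ 0) (hvw : sq ω v w ∈ 𝔤) : sq ω v w' ∈ 𝔤 := by
  have h1 := hL _ hvw _ hw'
  rw [bracket_sq halt] at h1
  have h2 : sq ω w' w ∈ 𝔤 := by
    rw [sq_comm]
    exact sq_adj halt hL hw hw' h
  have h3 : (2 * ω w' w) • sq ω w' v ∈ 𝔤 := by
    have h4 := Submodule.sub_mem _ h1 (Submodule.smul_mem _ (2 * ω w' v) h2)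
    rwa [add_sub_cancel_left] at h4
  have h4 : (2 * ω w' w) ≠ 0 := by
    rw [neg_symm halt w' w]
    exact mul_ne_zero two_ne_zero (neg_ne_zero.2 h)
  rw [sq_comm]
  exact (Submodule.smul_mem_iff _ h4).1 h3

/-- Adjacent vectors of the set `D`. -/
def Adj (ω : Y →ₗ[K] Y →ₗ[K] K) (D : Set Y) (v w : Y) : Prop := v ∈ D ∧ w ∈ D ∧ ω v w ≠ 0

include halt hL in
theorem sq_conn [CharZero K] {D : Set Y} (hD : ∀ v ∈ D, sq ω v v ∈ 𝔤) {v w : Y} (hv : v ∈ D)
    (h : Relation.ReflTransGen (Adj ω D) v w) : sq ω v w ∈ 𝔤 := by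
  induction h with
  | refl => exact hD v hv
  | tail _ h2 ih => exact sq_step halt hL (hD _ h2.1) (hD _ h2.2.1) h2.2.2 ih

/-- from a set to its span -/
theorem sq_span {C : Set Y} (h : ∀ v ∈ C, ∀ w ∈ C, sq ω v w ∈ 𝔤) {v w : Y}
    (hv : v ∈ Submodule.span K C) (hw : w ∈ Submodule.span K C) : sq ω v w ∈ 𝔤 := by
  have h1 : ∀ w ∈ C, ∀ v ∈ Submodule.span K C, sq ω v w ∈ 𝔤 := by
    intro w hw v hv
    induction hv using Submodule.span_induction with
    | mem v hv => exact h v hv w hw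
    | zero =>
      have := sq_smul_left ω (0 : K) 0 w
      rw [zero_smul, zero_smul] at this
      rw [this]
      exact 𝔤.zero_mem
    | add v v' _ _ hv hv' =>
      rw [sq_add_left]
      exact 𝔤.add_mem hv hv'
    | smul c v _ hv =>
      rw [sq_smul_left]
      exact 𝔤.smul_mem c hv
  induction hw using Submodule.span_induction with
  | mem w hw => exact h1 w hw v hv
  | zero =>
    have := sq_smul_left ω (0 : K) 0 v
    rw [zero_smul, zero_smul] at this
    rw [sq_comm, this]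
    exact 𝔤.zero_mem
  | add w w' _ _ hw hw' =>
    rw [sq_comm, sq_add_left, sq_comm ω w, sq_comm ω w']
    exact 𝔤.add_mem hw hw'
  | smul c w _ hw =>
    rw [sq_comm, sq_smul_left, sq_comm]
    exact 𝔤.smul_mem c hw

end Run7.h293.SQ
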