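import Pool.Agent.Run7.h293.SQ.B

/-!
# The components of a set of transvections
-/

set_option autoImplicit false

namespace Run7.h293.SQ

open Module

variable {K Y : Type*} [Field K] [AddCommGroup Y] [Module K Y]
  {ω : Y →ₗ[K] Y →ₗ[K] K} (halt : ∀ x, ω x x = 0) (D : Set Y)

/-- Vectors which are connected in `D`. -/
def Conn (ω : Y →ₗ[K] Y →ₗ[K] K) (D : Set Y) (v w : Y) : Prop := Relation.ReflTransGen (Adj ω D) v w

variable {D}

include halt in
theorem adj_symm {v w : Y} (h : Adj ω D v w) : Adj ω D w v :=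
  ⟨h.2.1, h.1, fun h0 => h.2.2 (by rw [neg_symm halt, h0, neg_zero])⟩

include halt in
theorem conn_symm {v w : Y} (h : Conn ω D v w) : Conn ω D w v := by
  unfold Conn at *
  induction h with
  | refl => exact Relation.ReflTransGen.refl
  | tail _ h2 ih => exact Relation.ReflTransGen.head (adj_symm halt h2) ih

theorem conn_trans {u v w : Y} (h : Conn ω D u v) (h' : Conn ω D v w) : Conn ω D u w := h.trans h'

theorem conn_of_ne {v w : Y} (hv : v ∈ D) (hw : w ∈ D) (h : ω v w ≠ 0) : Conn ω D v w :=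
  Relation.ReflTransGen.single ⟨hv, hw, h⟩

/-- The span of a component. -/
def comp (ω : Y →ₗ[K] Y →ₗ[K] K) (D : Set Y) (v : Y) : Submodule K Y :=
  Submodule.span K {w | w ∈ D ∧ Conn ω D v w}

theorem mem_comp {v : Y} (hv : v ∈ D) : v ∈ comp ω D v :=
  Submodule.subset_span ⟨hv, Relation.ReflTransGen.refl⟩

include halt in
theorem comp_eq {v v' : Y} (h : Conn ω D v v') : comp ω D v = comp ω D v' := by
  unfold comp
  congr 1
  ext w
  exact ⟨fun hw => ⟨hw.1, conn_trans (conn_symm halt h) hw.2⟩, fun hw => ⟨hw.1, conn_trans h hw.2⟩⟩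

theorem orth_span {A B : Set Y} (h : ∀ a ∈ A, ∀ b ∈ B, ω a b = 0) {x y : Y}
    (hx : x ∈ Submodule.span K A) (hy : y ∈ Submodule.span K B) : ω x y = 0 := by
  have h1 : ∀ a ∈ A, ω a y = 0 := by
    intro a ha
    induction hy using Submodule.span_induction with
    | mem b hb => exact h a ha b hb
    | zero => rw [map_zero]
    | add b b' _ _ hb hb' => rw [map_add, hb, hb', add_zero]
    | smul c b _ hb => rw [map_smul, hb, smul_zero]
  induction hx using Submodule.span_induction with
  | mem a ha => exact h1 a ha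
  | zero => rw [map_zero, LinearMap.zero_apply]
  | add a a' _ _ ha ha' => rw [map_add, LinearMap.add_apply, ha, ha', add_zero]
  | smul c a _ ha => rw [map_smul, LinearMap.smul_apply, ha, smul_zero]

include halt in
theorem comp_orth {v v' : Y} (h : ¬ Conn ω D v v') {x y : Y} (hx : x ∈ comp ω D v)
    (hy : y ∈ comp ω D v') : ω x y = 0 := by
  refine orth_span ?_ hx hy
  intro a ha b hb
  by_contra h0
  exact h (conn_trans (conn_trans ha.2 (conn_of_ne ha.1 hb.1 h0)) (conn_symm halt hb.2))

variable (hD : ∀ x, (∀ v ∈ D, ω x v = 0) → x = 0)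

include halt hD in
/-- a component is nondegenerate -/
theorem comp_nondeg {v x : Y} (hx : x ∈ comp ω D v) (h : ∀ y ∈ comp ω D v, ω x y = 0) :
    x = 0 := by
  apply hD
  intro w hw
  by_cases hc : Conn ω D v w
  · refine h w (Submodule.subset_span ⟨hw, hc⟩)
  · exact comp_orth halt hc hx (mem_comp hw)

include halt hD in
theorem comp_ne {v v' : Y} (hv : v ∈ D) (hv0 : v ≠ 0) (h : comp ω D v = comp ω D v') :
    Conn ω D v v' := by
  by_contra hc
  apply hv0
  refine comp_nondeg halt hD (mem_comp hv) fun y hy => ?_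
  rw [h] at hy
  exact comp_orth halt hc (mem_comp hv) hy

/-- The set of the spans of the components. -/
def comps (ω : Y →ₗ[K] Y →ₗ[K] K) (D : Set Y) : Set (Submodule K Y) := comp ω D '' D

include halt hD in
theorem comps_orth {W W' : Submodule K Y} (hW : W ∈ comps ω D) (hW' : W' ∈ comps ω D)
    (hne : W ≠ W') {x y : Y} (hx : x ∈ W) (hy : y ∈ W') : ω x y = 0 := by
  obtain ⟨v, hv, rfl⟩ := hW
  obtain ⟨v', hv', rfl⟩ := hW'
  exact comp_orth halt (fun h => hne (comp_eq halt h)) hx hy

include halt hD in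
theorem comps_indep : iSupIndep (fun W : comps ω D => (W : Submodule K Y)) := by
  intro W
  rw [disjoint_iff]
  rw [eq_bot_iff]
  rintro x ⟨hx, hx'⟩
  obtain ⟨v, hv, hW⟩ := W.2
  rw [Submodule.mem_bot]
  have h1 : ∀ y ∈ (W : Submodule K Y), ω x y = 0 := by
    intro y hy
    have h2 : (⨆ W' : comps ω D, ⨆ _ : W' ≠ W, (W' : Submodule K Y)) ≤
        LinearMap.ker (ω.flip y) := by
      refine iSup_le fun W' => iSup_le fun hne => ?_
      intro z hz
      rw [LinearMap.mem_ker, LinearMap.flip_apply]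
      exact comps_orth halt hD W'.2 W.2 (fun h => hne (Subtype.ext h)) hz hy
    have h3 := h2 hx'
    rw [LinearMap.mem_ker, LinearMap.flip_apply] at h3
    exact h3
  have hx2 : x ∈ (W : Submodule K Y) := hx
  rw [← hW] at hx2 h1
  exact comp_nondeg halt hD hx2 h1

include halt hD in
theorem span_top [FiniteDimensional K Y] : Submodule.span K D = ⊤ := by
  classical
  by_contra hne
  obtain ⟨f, hf0, hf⟩ := Submodule.exists_le_ker_of_lt_top _ (lt_top_iff_ne_top.2 hne)
  have hinj : Function.Injective (ω : Y →ₗ[K] Module.Dual K Y) := by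
    rw [injective_iff_map_eq_zero]
    intro x hx
    apply hD
    intro v _
    rw [hx, LinearMap.zero_apply]
  have hsurj : Function.Surjective (ω : Y →ₗ[K] Module.Dual K Y) :=
    (LinearMap.injective_iff_surjective_of_finrank_eq_finrank
      (Subspace.dual_finrank_eq (K := K) (V := Y)).symm).1 hinj
  obtain ⟨x, hx⟩ := hsurj f
  apply hf0
  have h0 : x = 0 := by
    apply hD
    intro v hv
    rw [hx]
    exact hf (Submodule.subset_span hv)
  rw [← hx, h0, map_zero]

include halt hD in
theorem iSup_comps [FiniteDimensional K Y] :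
    (⨆ W : comps ω D, (W : Submodule K Y)) = ⊤ := by
  rw [eq_top_iff, ← span_top halt hD, Submodule.span_le]
  intro v hv
  exact Submodule.mem_iSup_of_mem (⟨comp ω D v, v, hv, rfl⟩ : comps ω D) (mem_comp hv)

include halt hD in
theorem comps_finite [FiniteDimensional K Y] (h0 : ∀ v ∈ D, v ≠ 0) : (comps ω D).Finite := by
  have h1 := WellFoundedGT.finite_of_iSupIndep (comps_indep halt hD) (by
    rintro ⟨W, v, hv, rfl⟩
    intro h
    have h2 := mem_comp (ω := ω) hv
    have h3 : comp ω D v = ⊥ := h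
    rw [h3, Submodule.mem_bot] at h2
    exact h0 v hv h2)
  exact Set.toFinite _

section group

variable {G : Type*} [Group G] (ρ : Representation K G Y) (χ : G →* K)
  (hsim : ∀ g u v, ω (ρ g u) (ρ g v) = χ g * ω u v) (hGD : ∀ g, ∀ v ∈ D, ρ g v ∈ D)

theorem chi_ne (g : G) : χ g ≠ 0 := by
  intro h
  have h1 : χ g * χ g⁻¹ = 1 := by rw [← map_mul, mul_inv_cancel, map_one]
  rw [h, zero_mul] at h1
  exact zero_ne_one h1

include hsim hGD in
theorem adj_map (g : G) {v w : Y} (h : Adj ω D v w) : Adj ω D (ρ g v) (ρ g w) := by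
  refine ⟨hGD g v h.1, hGD g w h.2.1, ?_⟩
  rw [hsim]
  exact mul_ne_zero (chi_ne χ g) h.2.2

include hsim hGD in
theorem conn_map (g : G) {v w : Y} (h : Conn ω D v w) : Conn ω D (ρ g v) (ρ g w) := by
  unfold Conn at *
  induction h with
  | refl => exact Relation.ReflTransGen.refl
  | tail _ h2 ih => exact ih.tail (adj_map ρ χ hsim hGD g h2)

theorem rho_inv (g : G) (x : Y) : ρ g (ρ g⁻¹ x) = x := by
  rw [← Module.End.mul_apply, ← map_mul, mul_inv_cancel, map_one, Module.End.one_apply]

theorem rho_inv' (g : G) (x : Y) : ρ g⁻¹ (ρ g x) = x := by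
  rw [← Module.End.mul_apply, ← map_mul, inv_mul_cancel, map_one, Module.End.one_apply]

include hsim hGD in
theorem comp_map (g : G) (v : Y) : (comp ω D v).map (ρ g) = comp ω D (ρ g v) := by
  unfold comp
  rw [Submodule.map_span]
  congr 1
  ext w
  constructor
  · rintro ⟨u, hu, rfl⟩
    exact ⟨hGD g u hu.1, conn_map ρ χ hsim hGD g hu.2⟩
  · rintro ⟨hw, hc⟩
    refine ⟨ρ g⁻¹ w, ⟨hGD g⁻¹ w hw, ?_⟩, rho_inv ρ g w⟩
    have := conn_map ρ χ hsim hGD g⁻¹ hc
    rwa [rho_inv'] at this

include hsim hGD in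
theorem comps_map (g : G) {W : Submodule K Y} (hW : W ∈ comps ω D) : W.map (ρ g) ∈ comps ω D := by
  obtain ⟨v, hv, rfl⟩ := hW
  exact ⟨ρ g v, hGD g v hv, (comp_map ρ χ hsim hGD g v).symm⟩

/-- The permutation of the components. -/
noncomputable def perm : G →* Equiv.Perm (comps ω D) :=
  MonoidHom.toHomPerm
  { toFun := fun g W => ⟨(W : Submodule K Y).map (ρ g), comps_map ρ χ hsim hGD g W.2⟩
    map_one' := by
      funext W
      apply Subtype.ext
      change (W : Submodule K Y).map (ρ 1) = W
      rw [map_one]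
      exact Submodule.map_id _
    map_mul' := by
      intro g h
      funext W
      apply Subtype.ext
      change (W : Submodule K Y).map (ρ (g * h)) = ((W : Submodule K Y).map (ρ h)).map (ρ g)
      rw [map_mul, Module.End.mul_eq_comp, Submodule.map_comp] }

theorem perm_apply (g : G) (W : comps ω D) :
    ((perm ρ χ hsim hGD g W : comps ω D) : Submodule K Y) = (W : Submodule K Y).map (ρ g) := rfl

end group

end Run7.h293.SQ
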