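import Pool.Agent.W569.FM.Stmts
import Pool.Agent.Run7.h293.SQ.Sq

/-!
# Symplectic Galois representations of squarefree conductor: definitions
-/

set_option autoImplicit false

namespace Run7.h293.SQ

open Module Pool.Agent.W569.FM

/-- `Q` is a prime of the field of all algebraic numbers which does not lie above `ℓ`. -/
def Away (ℓ : ℕ) (Q : Ideal (OO ℚ)) : Prop := Q.IsMaximal ∧ (ℓ : OO ℚ) ∉ Q

/-- `σ` lies in the inertia group at some prime which does not lie above `ℓ`. -/
def AwayInertia (ℓ : ℕ) (σ : GF ℚ) : Prop := ∃ Q, Away ℓ Q ∧ InInertia Q σ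

/-- A representation `ρ` of the absolute Galois group of `ℚ` on the vector space `Y` over the
topological field `K` with continuous matrix coefficients, and a nondegenerate alternating form `ω`
which `ρ` respects up to a character `χ` that is trivial on all inertia groups at the primes
different from `ℓ`. -/
structure SymplecticRep (ℓ : ℕ) (K Y : Type) [Field K] [TopologicalSpace K] [AddCommGroup Y]
    [Module K Y] where
  /-- the representation -/
  ρ : Representation K (GF ℚ) Y
  /-- the form -/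
  ω : Y →ₗ[K] Y →ₗ[K] K
  /-- the multiplier -/
  χ : GF ℚ →* K
  continuous : ∀ (ξ : Dual K Y) (x : Y), Continuous fun g => ξ (ρ g x)
  alternating : ∀ x, ω x x = 0
  nondegenerate : ∀ x, (∀ y, ω x y = 0) → x = 0
  similitude : ∀ g x y, ω (ρ g x) (ρ g y) = χ g * ω x y
  unramified : ∀ σ, AwayInertia ℓ σ → χ σ = 1

variable {ℓ : ℕ} {K Y : Type} [Field K] [TopologicalSpace K] [AddCommGroup Y] [Module K Y]
  (V : SymplecticRep ℓ K Y)

/-- `S` is a set of primes; every inertia group at a prime different from `ℓ` acts trivially on the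
kernel of a linear form (so the conductor of `V` is squarefree outside `ℓ`), and it acts trivially
on `V` if the prime is not in `S`. -/
structure SquarefreeConductor (S : Finset ℕ) : Prop where
  prime : ∀ p ∈ S, p.Prime
  hyperplane : ∀ Q, Away ℓ Q → ∃ ξ : Dual K Y, ∀ σ, InInertia Q σ → ∀ x, ξ x = 0 → V.ρ σ x = x
  good : ∀ Q, Away ℓ Q → (∀ p ∈ S, (p : OO ℚ) ∉ Q) → ∀ σ, InInertia Q σ → V.ρ σ = 1

/-- A Galois stable subspace on which all inertia groups at the primes different from `ℓ` act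
trivially is zero. -/
def NothingUnramified : Prop := ∀ U : Submodule K Y, (∀ g, ∀ x ∈ U, V.ρ g x ∈ U) →
  (∀ σ, AwayInertia ℓ σ → ∀ x ∈ U, V.ρ σ x = x) → U = ⊥

/-- The inertia groups at `ℓ` map each member of a finite Galois stable set of subspaces to
itself. -/
def InertiaConnected : Prop := ∀ 𝒲 : Set (Submodule K Y), 𝒲.Finite →
  (∀ g, ∀ W ∈ 𝒲, W.map (V.ρ g) ∈ 𝒲) → ∀ Q : Ideal (OO ℚ), Q.IsMaximal → (ℓ : OO ℚ) ∈ Q →
    ∀ σ, InInertia Q σ → ∀ W ∈ 𝒲, W.map (V.ρ σ) = W

/-- `Y` is the direct sum of the nonzero Galois stable subspaces `W i`, which are orthogonal to each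
other and irreducible under all subgroups `H` of finite index; an endomorphism of `Y` which commutes
with the elements `g` of such an `H` with `χ g = 1` is a scalar on each `W i`; and the multilinear
forms on `Y` which are invariant under these `g` are killed by the Lie algebras of the symplectic
groups of all `W i`, that is, by the endomorphisms `x ↦ ω x v • w + ω x w • v` for `v, w` in
`W i`. -/
structure Splitting {m : ℕ} (W : Fin m → Submodule K Y) : Prop where
  direct : DirectSum.IsInternal W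
  ne_bot : ∀ i, W i ≠ ⊥
  orthogonal : ∀ i j, i ≠ j → ∀ x ∈ W i, ∀ y ∈ W j, V.ω x y = 0
  stable : ∀ i g, ∀ x ∈ W i, V.ρ g x ∈ W i
  irreducible : ∀ i, ∀ H : Subgroup (GF ℚ), H.FiniteIndex → ∀ U ≤ W i,
    (∀ g ∈ H, ∀ x ∈ U, V.ρ g x ∈ U) → U = ⊥ ∨ U = W i
  commutant : ∀ H : Subgroup (GF ℚ), H.FiniteIndex → ∀ f : End K Y,
    (∀ g ∈ H, V.χ g = 1 → ∀ x, f (V.ρ g x) = V.ρ g (f x)) → ∀ i, ∃ c : K, ∀ x ∈ W i, f x = c • x
  invariants : ∀ H : Subgroup (GF ℚ), H.FiniteIndex → ∀ (k : ℕ)
    (φ : MultilinearMap K (fun _ : Fin k => Y) K),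
    (∀ g ∈ H, V.χ g = 1 → ∀ x, (φ fun i => V.ρ g (x i)) = φ x) →
    ∀ i, ∀ v ∈ W i, ∀ w ∈ W i, ∀ x, ∑ j, φ (Function.update x j (sq V.ω v w (x j))) = 0

/-- `Y` is not the sum of two nonzero Galois stable subspaces with trivial intersection which are
orthogonal to each other. -/
def Indecomposable : Prop := ∀ U U' : Submodule K Y, IsCompl U U' →
  (∀ g, ∀ x ∈ U, V.ρ g x ∈ U) → (∀ g, ∀ x ∈ U', V.ρ g x ∈ U') →
  (∀ x ∈ U, ∀ y ∈ U', V.ω x y = 0) → U = ⊥ ∨ U' = ⊥

end Run7.h293.SQ
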