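import Pool.Agent.Run7.h293.SQ.C
import Pool.Agent.Run7.h293.SQ.Defs
import Pool.Agent.W215.FM.Gen
import Pool.Agent.W571.FM.Frob

/-!
# Symplectic Galois representations of squarefree conductor
-/

set_option autoImplicit false

namespace Run7.h293.SQ

open Module Pool.Agent.W569.FM

theorem exists_prime_mem {P : Ideal (OO ℚ)} (hP : P.IsMaximal) :
    ∃ p : ℕ, p.Prime ∧ (p : OO ℚ) ∈ P := by
  have hm : (P.under ℤ).IsMaximal := Ideal.IsMaximal.under ℤ P
  have hne : P.under ℤ ≠ ⊥ := Ring.ne_bot_of_isMaximal_of_not_isField hm Int.not_isField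
  have hpr : Prime (Submodule.IsPrincipal.generator (P.under ℤ)) :=
    Submodule.IsPrincipal.prime_generator_of_isPrime _ hne
  have hmem : Submodule.IsPrincipal.generator (P.under ℤ) ∈ P.under ℤ :=
    Submodule.IsPrincipal.generator_mem _
  refine ⟨(Submodule.IsPrincipal.generator (P.under ℤ)).natAbs,
    Int.prime_iff_natAbs_prime.1 hpr, ?_⟩
  have h1 : ((Submodule.IsPrincipal.generator (P.under ℤ) : ℤ) : OO ℚ) ∈ P := hmem
  rcases Int.natAbs_eq (Submodule.IsPrincipal.generator (P.under ℤ)) with h | h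
  · rw [h] at h1
    rw [Int.cast_natCast] at h1
    exact h1
  · rw [h, Int.cast_neg, Int.cast_natCast] at h1
    exact P.neg_mem_iff.1 h1

variable {ℓ : ℕ} {K Y : Type} [Field K] [TopologicalSpace K] [AddCommGroup Y] [Module K Y]
  (V : SymplecticRep ℓ K Y)

/-- The conjugates of the elements of the inertia groups outside `ℓ`. -/
def Iner (ℓ : ℕ) (s : GF ℚ) : Prop :=
  ∃ g σ : GF ℚ, ∃ Q : Ideal (OO ℚ), Q.IsMaximal ∧ (ℓ : OO ℚ) ∉ Q ∧ InInertia Q σ ∧ s = g * σ * g⁻¹

theorem Iner.conj {s : GF ℚ} (h : Iner ℓ s) (g : GF ℚ) : Iner ℓ (g * s * g⁻¹) := by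
  obtain ⟨h, σ, Q, h1, h2, h3, rfl⟩ := h
  exact ⟨g * h, σ, Q, h1, h2, h3, by group⟩

theorem Iner.of {σ : GF ℚ} {Q : Ideal (OO ℚ)} (h1 : Q.IsMaximal) (h2 : (ℓ : OO ℚ) ∉ Q)
    (h3 : InInertia Q σ) : Iner ℓ σ := ⟨1, σ, Q, h1, h2, h3, by group⟩

/-- The directions of the transvections. -/
def dirs : Set Y := {v | v ≠ 0 ∧ ∃ s, Iner ℓ s ∧ ∃ a : K, a ≠ 0 ∧
  ∀ x, V.ρ s x = x + (a * V.ω x v) • v}

theorem chi_iner {s : GF ℚ} (h : Iner ℓ s) : V.χ s = 1 := by
  obtain ⟨g, σ, Q, h1, h2, h3, rfl⟩ := h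
  rw [map_mul, map_mul, V.unramified σ ⟨Q, ⟨h1, h2⟩, h3⟩, mul_one, ← map_mul, mul_inv_cancel, map_one]

theorem dirs_map (g : GF ℚ) {v : Y} (hv : v ∈ dirs V) : V.ρ g v ∈ dirs V := by
  obtain ⟨hv0, s, hs, a, ha, hx⟩ := hv
  have hc := chi_ne V.χ g
  refine ⟨fun h => hv0 ?_, g * s * g⁻¹, hs.conj g, a * (V.χ g)⁻¹,
    mul_ne_zero ha (inv_ne_zero hc), fun x => ?_⟩
  · rw [← rho_inv' V.ρ g v, h, map_zero]
  · rw [map_mul, map_mul, Module.End.mul_apply, Module.End.mul_apply, hx, map_add, map_smul,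
      rho_inv]
    have h1 : V.ω x (V.ρ g v) = V.χ g * V.ω (V.ρ g⁻¹ x) v := by
      rw [← V.similitude, rho_inv]
    rw [h1]
    congr 2
    field_simp

theorem exists_dual [FiniteDimensional K Y] (ξ : Dual K Y) : ∃ δ : Y, ∀ x, V.ω x δ = ξ x := by
  have hinj : Function.Injective (V.ω : Y →ₗ[K] Module.Dual K Y) := by
    rw [injective_iff_map_eq_zero]
    intro x hx
    apply V.nondegenerate
    intro v
    rw [hx, LinearMap.zero_apply]
  have hsurj : Function.Surjective (V.ω : Y →ₗ[K] Module.Dual K Y) :=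
    (LinearMap.injective_iff_surjective_of_finrank_eq_finrank
      (Subspace.dual_finrank_eq (K := K) (V := Y)).symm).1 hinj
  obtain ⟨δ, hδ⟩ := hsurj (-ξ)
  refine ⟨δ, fun x => ?_⟩
  rw [neg_symm V.alternating, hδ, LinearMap.neg_apply, neg_neg]

variable {V} {S : Finset ℕ} (hS : SquarefreeConductor V S)

include hS in
/-- the inertia groups act by transvections in one direction -/
theorem trans [FiniteDimensional K Y] {Q : Ideal (OO ℚ)} (h1 : Q.IsMaximal) (h2 : (ℓ : OO ℚ) ∉ Q) :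
    ∃ δ : Y, ∀ σ, InInertia Q σ → ∃ a : K, ∀ x, V.ρ σ x = x + (a * V.ω x δ) • δ := by
  obtain ⟨ξ, hξ⟩ := hS.hyperplane Q ⟨h1, h2⟩
  obtain ⟨δ, hδ⟩ := exists_dual V ξ
  refine ⟨δ, fun σ hσ => ?_⟩
  by_cases h0 : ξ = 0
  · refine ⟨0, fun x => ?_⟩
    rw [hξ σ hσ x (by rw [h0, LinearMap.zero_apply]), zero_mul, zero_smul, add_zero]
  · obtain ⟨y, hy⟩ : ∃ y, ξ y = 1 := by
      obtain ⟨z, hz⟩ : ∃ z, ξ z ≠ 0 := by
        by_contra hcon
        push Not at hcon
        exact h0 (LinearMap.ext hcon)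
      exact ⟨(ξ z)⁻¹ • z, by rw [map_smul, smul_eq_mul, inv_mul_cancel₀ hz]⟩
    obtain ⟨u, hu0⟩ : ∃ u, u = V.ρ σ y - y := ⟨_, rfl⟩
    have hx : ∀ x, V.ρ σ x = x + ξ x • u := by
      intro x
      have h3 := hξ σ hσ (x - ξ x • y) (by rw [map_sub, map_smul, hy, smul_eq_mul, mul_one, sub_self])
      rw [map_sub, map_smul] at h3
      rw [hu0, smul_sub]
      rw [sub_eq_iff_eq_add] at h3
      rw [h3]
      abel
    have hker : ∀ x, ξ x = 0 → V.ω x u = 0 := by
      intro x hx0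
      have h3 := V.similitude σ x y
      rw [V.unramified σ ⟨Q, ⟨h1, h2⟩, hσ⟩, one_mul, hξ σ hσ x hx0, hx y, hy, one_smul, map_add] at h3
      exact add_eq_left.1 h3
    have hu : ∀ x, V.ω x u = V.ω y u * V.ω x δ := by
      intro x
      have h3 := hker (x - ξ x • y) (by rw [map_sub, map_smul, hy, smul_eq_mul, mul_one, sub_self])
      rw [map_sub, map_smul, LinearMap.sub_apply, LinearMap.smul_apply, smul_eq_mul] at h3
      rw [hδ, sub_eq_zero.1 h3, mul_comm]
    have hu2 : u = V.ω y u • δ := by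
      rw [← sub_eq_zero]
      apply V.nondegenerate
      intro x
      rw [neg_symm V.alternating, map_sub, map_smul, smul_eq_mul, hu x, sub_self, neg_zero]
    refine ⟨V.ω y u, fun x => ?_⟩
    rw [hx, hδ]
    conv_lhs => rw [hu2]
    rw [smul_smul, mul_comm]

include hS in
theorem perp [FiniteDimensional K Y] (hF : NothingUnramified V) (x : Y)
    (hx : ∀ v ∈ dirs V, V.ω x v = 0) : x = 0 := by
  let U : Submodule K Y := ⨅ v ∈ dirs V, LinearMap.ker (V.ω.flip v)
  have hU : ∀ x, x ∈ U ↔ ∀ v ∈ dirs V, V.ω x v = 0 := by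
    intro x
    simp only [U, Submodule.mem_iInf, LinearMap.mem_ker, LinearMap.flip_apply]
  have h1 : U = ⊥ := by
    refine hF U ?_ ?_
    · intro g x hx
      rw [hU] at hx ⊢
      intro v hv
      have h2 := hx _ (dirs_map V g⁻¹ hv)
      have h3 := V.similitude g x (V.ρ g⁻¹ v)
      rw [rho_inv, h2, mul_zero] at h3
      exact h3
    · rintro σ ⟨Q, ⟨h1, h2⟩, hσ⟩ x hx
      rw [hU] at hx
      obtain ⟨δ, hδ⟩ := trans hS h1 h2
      obtain ⟨a, ha⟩ := hδ σ hσ
      rw [ha]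
      by_cases ha0 : a = 0
      · rw [ha0, zero_mul, zero_smul, add_zero]
      by_cases hδ0 : δ = 0
      · rw [hδ0, smul_zero, add_zero]
      rw [hx δ ⟨hδ0, σ, Iner.of h1 h2 hσ, a, ha0, ha⟩, mul_zero, zero_smul, add_zero]
  have h2 : x ∈ U := (hU x).2 hx
  rw [h1, Submodule.mem_bot] at h2
  exact h2

/-- The permutation of the components. -/
noncomputable abbrev pm (V : SymplecticRep ℓ K Y) : GF ℚ →* Equiv.Perm (comps V.ω (dirs V)) :=
  perm V.ρ V.χ V.similitude (fun g _ hv => dirs_map V g hv)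

include hS in
theorem pm_inertia [FiniteDimensional K Y] (hF : NothingUnramified V) (hC : InertiaConnected V)
    {Q : Ideal (OO ℚ)} (h1 : Q.IsMaximal) {σ : GF ℚ} (hσ : InInertia Q σ) : pm V σ = 1 := by
  apply Equiv.ext
  rintro ⟨W, hW⟩
  apply Subtype.ext
  rw [Equiv.Perm.one_apply]
  change W.map (V.ρ σ) = W
  by_cases h2 : (ℓ : OO ℚ) ∈ Q
  · exact hC _ (comps_finite V.alternating (perp hS hF) fun v hv => hv.1)
      (fun g W hW => comps_map V.ρ V.χ V.similitude (fun g _ hv => dirs_map V g hv) g hW) Q h1 h2 σ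
      hσ W hW
  · obtain ⟨v, hv, rfl⟩ := hW
    rw [comp_map V.ρ V.χ V.similitude (fun g _ hv => dirs_map V g hv)]
    obtain ⟨δ, hδ⟩ := trans hS h1 h2
    obtain ⟨a, ha⟩ := hδ σ hσ
    by_cases h0 : a * V.ω v δ = 0
    · rw [ha, h0, zero_smul, add_zero]
    · have ha0 : a ≠ 0 := left_ne_zero_of_mul h0
      have hω : V.ω v δ ≠ 0 := right_ne_zero_of_mul h0
      have hδ0 : δ ≠ 0 := by
        rintro rfl
        exact hω (map_zero _)
      have hδD : δ ∈ dirs V := ⟨hδ0, σ, Iner.of h1 h2 hσ, a, ha0, ha⟩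
      have h3 : V.ω (V.ρ σ v) δ ≠ 0 := by
        rw [ha, map_add, LinearMap.add_apply, map_smul, LinearMap.smul_apply, V.alternating,
          smul_zero, add_zero]
        exact hω
      exact comp_eq V.alternating (conn_trans (conn_of_ne (dirs_map V σ hv) hδD h3)
        (conn_symm V.alternating (conn_of_ne hv hδD hω)))

/-- the kernel is open -/
theorem ker_open [FiniteDimensional K Y] [T1Space K] (hfin : (comps V.ω (dirs V)).Finite) :
    IsOpen ((pm V).ker : Set (GF ℚ)) := by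
  have : Finite (comps V.ω (dirs V)) := hfin
  have hfi : (pm V).ker.FiniteIndex := by
    infer_instance
  refine Subgroup.isOpen_of_isClosed_of_finiteIndex _ ?_
  have h1 : ((pm V).ker : Set (GF ℚ)) = ⋂ (W ∈ comps V.ω (dirs V)) (x ∈ W)
      (ξ : Dual K Y) (_ : ∀ y ∈ W, ξ y = 0), {g | ξ (V.ρ g x) = 0} := by
    ext g
    simp only [Set.mem_iInter, Set.mem_ofPred_eq, SetLike.mem_coe, MonoidHom.mem_ker]
    constructor
    · intro hg W hW x hx ξ hξ
      apply hξ
      have h2 : W.map (V.ρ g) = W := by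
        have h3 := congrArg (fun π : Equiv.Perm (comps V.ω (dirs V)) =>
          ((π ⟨W, hW⟩ : comps V.ω (dirs V)) : Submodule K Y)) hg
        exact h3
      rw [← h2]
      exact Submodule.mem_map_of_mem hx
    · intro h
      apply Equiv.ext
      rintro ⟨W, hW⟩
      apply Subtype.ext
      rw [Equiv.Perm.one_apply]
      change W.map (V.ρ g) = W
      have h2 : W.map (V.ρ g) ≤ W := by
        rintro _ ⟨x, hx, rfl⟩
        by_contra hnot
        obtain ⟨ξ, hξ, hξW⟩ := Submodule.exists_le_ker_of_notMem hnot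
        exact hξ (h W hW x hx ξ fun y hy => hξW hy)
      refine Submodule.eq_of_le_of_finrank_eq h2 ?_
      have hinj : Function.Injective (V.ρ g) := fun x y hxy => by
        rw [← rho_inv' V.ρ g x, hxy, rho_inv']
      exact (LinearEquiv.finrank_eq (Submodule.equivMapOfInjective (V.ρ g) hinj W)).symm
  rw [h1]
  refine isClosed_biInter fun W _ => isClosed_biInter fun x _ => isClosed_iInter fun ξ =>
    isClosed_iInter fun _ => ?_
  exact isClosed_singleton.preimage (V.continuous ξ x)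

end Run7.h293.SQ
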