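import Pool.Agent.Run7.h293.SQ.D

/-!
# Symplectic Galois representations of squarefree conductor: the splitting
-/

set_option autoImplicit false

namespace Run7.h293.SQ

open Module Pool.Agent.W569.FM

variable {ℓ : ℕ} {K Y : Type} [Field K] [TopologicalSpace K] [AddCommGroup Y] [Module K Y]
  {V : SymplecticRep ℓ K Y} {S : Finset ℕ}

theorem pm_one [FiniteDimensional K Y] [T1Space K] (hS : SquarefreeConductor V S)
    (hF : NothingUnramified V) (hC : InertiaConnected V) (g : GF ℚ) : pm V g = 1 :=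
  Pool.Agent.W215.FM.main _ (pm V)
    (ker_open (comps_finite V.alternating (perp hS hF) fun _ hv => hv.1))
    (fun _ hP _ hτ => pm_inertia hS hF hC hP hτ) g

theorem comp_stable [FiniteDimensional K Y] [T1Space K] (hS : SquarefreeConductor V S)
    (hF : NothingUnramified V) (hC : InertiaConnected V) {W : Submodule K Y}
    (hW : W ∈ comps V.ω (dirs V)) (g : GF ℚ) : W.map (V.ρ g) = W := by
  have h3 := congrArg (fun π : Equiv.Perm (comps V.ω (dirs V)) =>
    ((π ⟨W, hW⟩ : comps V.ω (dirs V)) : Submodule K Y)) (pm_one hS hF hC g)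
  exact h3

/-- powers of a transvection -/
theorem trans_pow (halt : ∀ x, V.ω x x = 0) {s : GF ℚ} {a : K} {v : Y}
    (h : ∀ x, V.ρ s x = x + (a * V.ω x v) • v) (n : ℕ) (x : Y) :
    V.ρ (s ^ n) x = x + ((n * a) * V.ω x v) • v := by
  induction n with
  | zero => simp
  | succ n ih =>
    rw [pow_succ', map_mul, Module.End.mul_apply, ih, h, map_add, LinearMap.add_apply, map_smul,
      LinearMap.smul_apply, halt, smul_zero, add_zero, add_assoc, ← add_smul]
    congr 2
    push_cast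
    ring

theorem exists_pow {H : Subgroup (GF ℚ)} (hH : H.FiniteIndex) (s : GF ℚ) :
    ∃ n : ℕ, n ≠ 0 ∧ s ^ n ∈ H := by
  obtain ⟨n, hn, -, hs⟩ := Subgroup.exists_pow_mem_of_index_ne_zero hH.index_ne_zero s
  exact ⟨n, Nat.pos_iff_ne_zero.1 hn, hs⟩

theorem irred [FiniteDimensional K Y] [CharZero K]
    (hS : SquarefreeConductor V S) (hF : NothingUnramified V) {W : Submodule K Y}
    (hW : W ∈ comps V.ω (dirs V)) {H : Subgroup (GF ℚ)} (hH : H.FiniteIndex) {U : Submodule K Y}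
    (hUW : U ≤ W) (hU : ∀ g ∈ H, ∀ x ∈ U, V.ρ g x ∈ U) : U = ⊥ ∨ U = W := by
  obtain ⟨v₀, hv₀, rfl⟩ := hW
  have key : ∀ v ∈ dirs V, (∃ u ∈ U, V.ω u v ≠ 0) → v ∈ U := by
    rintro v ⟨hv, s, hs, a, ha, hx⟩ ⟨u, hu, huv⟩
    obtain ⟨n, hn, hsn⟩ := exists_pow hH s
    have h1 := hU _ hsn u hu
    rw [trans_pow V.alternating hx n u, Submodule.add_mem_iff_right _ hu] at h1
    refine (Submodule.smul_mem_iff _ ?_).1 h1
    exact mul_ne_zero (mul_ne_zero (Nat.cast_ne_zero.2 hn) ha) huv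
  by_cases h : ∃ v ∈ dirs V, Conn V.ω (dirs V) v₀ v ∧ v ∈ U
  · right
    obtain ⟨v, hv, hc, hvU⟩ := h
    refine le_antisymm hUW ?_
    unfold comp
    rw [Submodule.span_le]
    rintro w ⟨hw, hcw⟩
    have h1 : Conn V.ω (dirs V) v w := conn_trans (conn_symm V.alternating hc) hcw
    unfold Conn at h1
    clear hcw hw
    induction h1 with
    | refl => exact hvU
    | tail _ h2 ih => exact key _ h2.2.1 ⟨_, ih, h2.2.2⟩
  · left
    push Not at h
    rw [eq_bot_iff]
    intro u hu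
    rw [Submodule.mem_bot]
    refine comp_nondeg (v := v₀) V.alternating (perp hS hF) (hUW hu) ?_
    intro y hy
    have h1 : comp V.ω (dirs V) v₀ ≤ LinearMap.ker (V.ω u) := by
      unfold comp
      rw [Submodule.span_le]
      rintro w ⟨hw, hcw⟩
      rw [SetLike.mem_coe, LinearMap.mem_ker]
      by_contra hne
      exact h w hw hcw (key w hw ⟨u, hu, hne⟩)
    exact h1 hy

theorem invar [CharZero K]
    {W : Submodule K Y} (hW : W ∈ comps V.ω (dirs V)) {H : Subgroup (GF ℚ)} (hH : H.FiniteIndex)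
    {k : ℕ} {φ : MultilinearMap K (fun _ : Fin k => Y) K}
    (hφ : ∀ g ∈ H, V.χ g = 1 → ∀ x, (φ fun i => V.ρ g (x i)) = φ x) {v w : Y} (hv : v ∈ W)
    (hw : w ∈ W) : sq V.ω v w ∈ killer φ := by
  obtain ⟨v₀, hv₀, rfl⟩ := hW
  have h1 : ∀ v ∈ dirs V, sq V.ω v v ∈ killer φ := by
    rintro v ⟨hv, s, hs, a, ha, hx⟩
    obtain ⟨n, hn, hsn⟩ := exists_pow hH s
    have h2 : ((n * a) * (2 : K)⁻¹) • sq V.ω v v ∈ killer φ := by
      apply killer_of_invariant
      intro m x
      have h3 := hφ ((s ^ n) ^ m) (H.pow_mem hsn m)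
        (by rw [map_pow, map_pow, chi_iner V hs, one_pow, one_pow]) x
      rw [← h3]
      congr 1
      funext i
      rw [← pow_mul, trans_pow V.alternating hx, LinearMap.smul_apply, sq_apply, ← add_smul,
        smul_smul, smul_smul, add_comm]
      congr 2
      push_cast
      have : V.ω (x i) v + V.ω (x i) v = 2 * V.ω (x i) v := by ring
      rw [this]
      field_simp
    refine (Submodule.smul_mem_iff _ ?_).1 h2
    exact mul_ne_zero (mul_ne_zero (Nat.cast_ne_zero.2 hn) ha) (inv_ne_zero two_ne_zero)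
  refine sq_span (C := {w | w ∈ dirs V ∧ Conn V.ω (dirs V) v₀ w}) ?_ hv hw
  intro v hv w hw
  exact sq_conn V.alternating (fun _ hX _ hX' => killer_bracket hX hX') h1 hv.1
    (conn_trans (conn_symm V.alternating hv.2) hw.2)

theorem scal [CharZero K] {W : Submodule K Y} (hW : W ∈ comps V.ω (dirs V))
    {H : Subgroup (GF ℚ)} (hH : H.FiniteIndex) {f : End K Y}
    (hf : ∀ g ∈ H, V.χ g = 1 → ∀ x, f (V.ρ g x) = V.ρ g (f x)) :
    ∃ c : K, ∀ x ∈ W, f x = c • x := by
  obtain ⟨v₀, hv₀, rfl⟩ := hW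
  have h1 : ∀ v ∈ dirs V, ∀ x, V.ω x v • f v = V.ω (f x) v • v := by
    rintro v ⟨hv, s, hs, a, ha, hx⟩ x
    obtain ⟨n, hn, hsn⟩ := exists_pow hH s
    have h2 := hf _ hsn (by rw [map_pow, chi_iner V hs, one_pow]) x
    rw [trans_pow V.alternating hx, trans_pow V.alternating hx, map_add, map_smul] at h2
    have h3 := add_left_cancel h2
    rw [mul_smul (_ * a), mul_smul (_ * a)] at h3
    exact smul_right_injective Y (mul_ne_zero (Nat.cast_ne_zero.2 hn) ha) h3
  have h2 : ∀ v ∈ dirs V, ∃ c : K, f v = c • v ∧ ∀ x, V.ω (f x) v = c * V.ω x v := by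
    intro v hv
    obtain ⟨y, hy⟩ : ∃ y, V.ω y v ≠ 0 := by
      by_contra hcon
      push Not at hcon
      apply hv.1
      apply V.nondegenerate
      intro y
      rw [neg_symm V.alternating, hcon, neg_zero]
    have h3 : f v = ((V.ω y v)⁻¹ * V.ω (f y) v) • v := by
      rw [mul_smul, ← h1 v hv y, smul_smul, inv_mul_cancel₀ hy, one_smul]
    refine ⟨_, h3, fun x => ?_⟩
    have h4 := h1 v hv x
    rw [h3, smul_smul] at h4
    rw [mul_comm]
    exact (smul_left_injective K hv.1 h4).symm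
  obtain ⟨c, hc, hc'⟩ := h2 v₀ hv₀
  have h3 : ∀ w, Conn V.ω (dirs V) v₀ w → f w = c • w ∧ ∀ x, V.ω (f x) w = c * V.ω x w := by
    intro w hw
    unfold Conn at hw
    induction hw with
    | refl => exact ⟨hc, hc'⟩
    | @tail u w _ h ih =>
      obtain ⟨d, hd, hd'⟩ := h2 w h.2.1
      have h4 : d = c := by
        have h5 := hd' u
        rw [ih.1, map_smul, LinearMap.smul_apply, smul_eq_mul] at h5
        exact (mul_right_cancel₀ h.2.2 h5).symm
      rw [← h4]
      exact ⟨hd, hd'⟩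
  refine ⟨c, fun x hx => ?_⟩
  unfold comp at hx
  induction hx using Submodule.span_induction with
  | mem w hw => exact (h3 w hw.2).1
  | zero => rw [map_zero, smul_zero]
  | add a b _ _ ha hb => rw [map_add, ha, hb, smul_add]
  | smul t a _ ha => rw [map_smul, ha, smul_comm]

/-- parallel directions -/
theorem parallel {s : GF ℚ} {a b : K} {v δ : Y} (ha : a ≠ 0) (hv : v ≠ 0)
    (h : ∀ x, V.ρ s x = x + (a * V.ω x v) • v) (h' : ∀ x, V.ρ s x = x + (b * V.ω x δ) • δ) :
    b ≠ 0 ∧ δ ≠ 0 ∧ ∃ c : K, c ≠ 0 ∧ v = c • δ := by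
  obtain ⟨x, hx⟩ : ∃ x, V.ω x v ≠ 0 := by
    by_contra hcon
    push Not at hcon
    apply hv
    apply V.nondegenerate
    intro y
    rw [neg_symm V.alternating, hcon, neg_zero]
  have h1 : (a * V.ω x v) • v = (b * V.ω x δ) • δ := by
    have h2 := h x
    rw [h'] at h2
    exact (add_left_cancel h2).symm
  have h2 : (a * V.ω x v) • v ≠ 0 := smul_ne_zero (mul_ne_zero ha hx) hv
  have h3 : (b * V.ω x δ) ≠ 0 ∧ δ ≠ 0 := by
    rw [h1] at h2
    exact ⟨fun h => h2 (by rw [h, zero_smul]), fun h => h2 (by rw [h, smul_zero])⟩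
  refine ⟨left_ne_zero_of_mul h3.1, h3.2, (a * V.ω x v)⁻¹ * (b * V.ω x δ), mul_ne_zero
    (inv_ne_zero (mul_ne_zero ha hx)) h3.1, ?_⟩
  rw [mul_smul, ← h1, smul_smul, inv_mul_cancel₀ (mul_ne_zero ha hx), one_smul]

theorem conn_parallel [FiniteDimensional K Y] (hS : SquarefreeConductor V S)
    (hF : NothingUnramified V) {v δ : Y} (hv : v ∈ dirs V) (hδ : δ ∈ dirs V) {c : K}
    (h : v = c • δ) : Conn V.ω (dirs V) v δ := by
  obtain ⟨w, hw, hvw⟩ : ∃ w ∈ dirs V, V.ω v w ≠ 0 := by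
    by_contra hcon
    push Not at hcon
    exact hv.1 (perp hS hF v hcon)
  have h2 : V.ω δ w ≠ 0 := by
    rw [h, map_smul, LinearMap.smul_apply] at hvw
    exact right_ne_zero_of_mul hvw
  exact conn_trans (conn_of_ne hv hw hvw) (conn_symm V.alternating (conn_of_ne hδ hw h2))

/-- the component of a direction at the prime ideal `Q` -/
theorem comp_dir [FiniteDimensional K Y] [T1Space K] (hS : SquarefreeConductor V S)
    (hF : NothingUnramified V) (hC : InertiaConnected V) {Q : Ideal (OO ℚ)} {δ : Y}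
    (hQ : Q.IsMaximal) (hℓ : (ℓ : OO ℚ) ∉ Q)
    (hδ : ∀ σ, InInertia Q σ → ∃ a : K, ∀ x, V.ρ σ x = x + (a * V.ω x δ) • δ) {v : Y} {g σ : GF ℚ}
    (hσ : InInertia Q σ) (hv : v ∈ dirs V) {a : K} (ha : a ≠ 0)
    (hx : ∀ x, V.ρ (g * σ * g⁻¹) x = x + (a * V.ω x v) • v) :
    comp V.ω (dirs V) v = comp V.ω (dirs V) δ := by
  obtain ⟨b, hb⟩ := hδ σ hσ
  have hv' : V.ρ g⁻¹ v ∈ dirs V := dirs_map V g⁻¹ hv
  have hx' : ∀ x, V.ρ σ x = x + (a * V.χ g * V.ω x (V.ρ g⁻¹ v)) • V.ρ g⁻¹ v := by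
    intro x
    have h1 := hx (V.ρ g x)
    rw [map_mul, map_mul, Module.End.mul_apply, Module.End.mul_apply, rho_inv'] at h1
    have h2 := congrArg (V.ρ g⁻¹) h1
    rw [rho_inv', map_add, rho_inv', map_smul] at h2
    rw [h2]
    have h3 : V.ω (V.ρ g x) v = V.χ g * V.ω x (V.ρ g⁻¹ v) := by
      rw [← V.similitude, rho_inv]
    rw [h3, mul_assoc]
  obtain ⟨hb0, hδ0, c, hc, hvc⟩ := parallel (mul_ne_zero ha (chi_ne V.χ g)) hv'.1 hx' hb
  have hδD : δ ∈ dirs V := ⟨hδ0, σ, Iner.of hQ hℓ hσ, b, hb0, hb⟩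
  rw [← comp_eq V.alternating (conn_parallel hS hF hv' hδD hvc)]
  rw [← comp_map V.ρ V.χ V.similitude (fun g _ hv => dirs_map V g hv)]
  exact (comp_stable hS hF hC ⟨v, hv, rfl⟩ g⁻¹).symm

theorem exists_bad (hS : SquarefreeConductor V S) (W : comps V.ω (dirs V)) :
    ∃ p : S, ∃ Q : Ideal (OO ℚ), Q.IsMaximal ∧ (ℓ : OO ℚ) ∉ Q ∧ ((p : ℕ) : OO ℚ) ∈ Q ∧
      ∃ g σ : GF ℚ, InInertia Q σ ∧ ∃ v ∈ dirs V, ∃ a : K, a ≠ 0 ∧
        (∀ x, V.ρ (g * σ * g⁻¹) x = x + (a * V.ω x v) • v) ∧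
        comp V.ω (dirs V) v = (W : Submodule K Y) := by
  obtain ⟨W, v, hv, rfl⟩ := W
  obtain ⟨hv0, s, ⟨g, σ, Q, h1, h2, h3, rfl⟩, a, ha, hx⟩ := id hv
  by_cases hgood : ∀ p ∈ S, (p : OO ℚ) ∉ Q
  · exfalso
    have h4 : V.ρ (g * σ * g⁻¹) = 1 := by
      rw [map_mul, map_mul, hS.good Q ⟨h1, h2⟩ hgood σ h3, mul_one, ← map_mul, mul_inv_cancel, map_one]
    apply hv0
    apply V.nondegenerate
    intro y
    rw [neg_symm V.alternating, neg_eq_zero]
    have h5 := hx y
    rw [h4, Module.End.one_apply, left_eq_add, smul_eq_zero] at h5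
    exact (mul_eq_zero.1 (h5.resolve_right hv0)).resolve_left ha
  · push Not at hgood
    obtain ⟨p, hp, hpQ⟩ := hgood
    exact ⟨⟨p, hp⟩, Q, h1, h2, hpQ, g, σ, h3, v, hv, a, ha, hx, rfl⟩

theorem card_le [FiniteDimensional K Y] [T1Space K] (hS : SquarefreeConductor V S)
    (hF : NothingUnramified V) (hC : InertiaConnected V) : Nat.card (comps V.ω (dirs V)) ≤ S.card := by
  classical
  choose f hf using exists_bad (V := V) hS
  have hinj : Function.Injective f := by
    intro W W' hWW'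
    obtain ⟨Q, h1, h2, h3, g, σ, hσ, v, hv, a, ha, hx, hc⟩ := hf W
    obtain ⟨Q', h1', h2', h3', g', σ', hσ', v', hv', a', ha', hx', hc'⟩ := hf W'
    rw [← hWW'] at h3'
    obtain ⟨δ, hδ⟩ := trans hS h1 h2
    obtain ⟨t, ht⟩ := (Pool.Agent.W571.FM.main (f W : ℕ) (hS.prime _ (f W).2)).2 Q Q' h1 h1' h3 h3'
    apply Subtype.ext
    rw [← hc, ← hc', comp_dir hS hF hC h1 h2 hδ hσ hv ha hx]
    refine (comp_dir (g := g' * t) hS hF hC h1 h2 hδ (ht σ' hσ') hv' ha' ?_).symm
    have h4 : g' * t * (t⁻¹ * σ' * t) * (g' * t)⁻¹ = g' * σ' * g'⁻¹ := by group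
    rw [h4]
    exact hx'
  have h1 := Nat.card_le_card_of_injective f hinj
  rwa [Nat.card_eq_fintype_card (α := S), Fintype.card_coe] at h1

/-- **The splitting.** -/
theorem splitting [FiniteDimensional K Y] [T1Space K] [CharZero K]
    (hS : SquarefreeConductor V S) (hF : NothingUnramified V) (hC : InertiaConnected V) :
    ∃ m ≤ S.card, ∃ W : Fin m → Submodule K Y, Splitting V W := by
  have hfin := comps_finite V.alternating (perp hS hF) fun _ hv => hv.1
  have : Finite (comps V.ω (dirs V)) := hfin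
  refine ⟨Nat.card (comps V.ω (dirs V)), card_le hS hF hC,
    fun i => (Finite.equivFin (comps V.ω (dirs V))).symm i, ?_⟩
  have hind := comps_indep V.alternating (perp hS hF)
  have hsup := iSup_comps V.alternating (perp hS hF)
  refine ⟨?_, ?_, ?_, ?_, ?_, ?_, ?_⟩
  · refine DirectSum.isInternal_submodule_of_iSupIndep_of_iSup_eq_top ?_ ?_
    · exact hind.comp (Finite.equivFin (comps V.ω (dirs V))).symm.injective
    · rw [← hsup]
      exact (Finite.equivFin (comps V.ω (dirs V))).symm.iSup_comp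
        (g := fun W : comps V.ω (dirs V) => (W : Submodule K Y))
  · intro i
    generalize ((Finite.equivFin (comps V.ω (dirs V))).symm i) = W
    obtain ⟨W, v, hv, rfl⟩ := W
    intro h
    have h2 := mem_comp (ω := V.ω) hv
    have h3 : comp V.ω (dirs V) v = ⊥ := h
    rw [h3, Submodule.mem_bot] at h2
    exact hv.1 h2
  · intro i j hij x hx y hy
    exact comps_orth V.alternating (perp hS hF) (Subtype.prop _) (Subtype.prop _)
      (fun h => hij ((Finite.equivFin (comps V.ω (dirs V))).symm.injective (Subtype.ext h))) hx hy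
  · intro i g x hx
    have h1 := comp_stable hS hF hC ((Finite.equivFin (comps V.ω (dirs V))).symm i).2 g
    rw [← h1]
    exact Submodule.mem_map_of_mem hx
  · intro i H hH U hUW hU
    exact irred hS hF (Subtype.prop _) hH hUW hU
  · intro H hH f hf i
    exact scal (Subtype.prop _) hH hf
  · intro H hH k φ hφ i v hv w hw x
    have h1 := invar ((Finite.equivFin (comps V.ω (dirs V))).symm i).2 hH hφ hv hw
    have h2 : der (sq V.ω v w) φ = 0 := h1
    rw [← der_apply, h2, zero_apply]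

/-- **One bad prime.** -/
theorem indecomposable [FiniteDimensional K Y] [T1Space K] [CharZero K]
    (hS : SquarefreeConductor V S) (hF : NothingUnramified V) (hC : InertiaConnected V)
    (h1 : S.card ≤ 1) : Indecomposable V := by
  obtain ⟨m, hm, W, hW⟩ := splitting hS hF hC
  intro U U' hc hU hU' _
  have hm1 : m = 0 ∨ m = 1 := by omega
  rcases hm1 with rfl | rfl
  · left
    have h2 := hW.direct.submodule_iSup_eq_top
    rw [iSup_of_empty] at h2
    rw [eq_bot_iff, h2]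
    exact le_top
  · have h2 := hW.direct.submodule_iSup_eq_top
    rw [iSup_unique] at h2
    rcases hW.irreducible default ⊤ inferInstance U (h2 ▸ le_top) (fun g _ => hU g) with h | h
    · exact Or.inl h
    · right
      rw [h2] at h
      have h3 := hc.disjoint
      rw [h, top_disjoint] at h3
      exact h3

/-- Irreducibility of the indecomposable ones. -/
theorem irred_of_indecomposable [FiniteDimensional K Y] [T1Space K] [CharZero K]
    (hS : SquarefreeConductor V S) (hF : NothingUnramified V) (hC : InertiaConnected V)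
    (h1 : Indecomposable V) (H : Subgroup (GF ℚ)) (hH : H.FiniteIndex) (U : Submodule K Y)
    (hU : ∀ g ∈ H, ∀ x ∈ U, V.ρ g x ∈ U) : U = ⊥ ∨ U = ⊤ := by
  obtain ⟨m, hm, W, hW⟩ := splitting hS hF hC
  by_cases hm0 : m = 0
  · subst hm0
    left
    have h2 := hW.direct.submodule_iSup_eq_top
    rw [iSup_of_empty] at h2
    rw [eq_bot_iff, h2]
    exact le_top
  · have hpos : 0 < m := Nat.pos_of_ne_zero hm0
    let i : Fin m := ⟨0, hpos⟩
    have h3 : IsCompl (W i) (⨆ j ≠ i, W j) := by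
      refine ⟨hW.direct.submodule_iSupIndep i, ?_⟩
      rw [codisjoint_iff, ← hW.direct.submodule_iSup_eq_top]
      refine le_antisymm (sup_le (le_iSup W i) (iSup₂_le fun j _ => le_iSup W j)) ?_
      refine iSup_le fun j => ?_
      by_cases hj : j = i
      · subst hj
        exact le_sup_left
      · exact le_sup_of_le_right (le_iSup₂_of_le j hj le_rfl)
    have hA : ∀ g, ∀ x ∈ (⨆ j ≠ i, W j), V.ρ g x ∈ (⨆ j ≠ i, W j) := by
      intro g x hx
      have h5 : (⨆ j ≠ i, W j) ≤ (⨆ j ≠ i, W j).comap (V.ρ g) := by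
        refine iSup₂_le fun j hj => ?_
        intro y hy
        exact (le_iSup₂ (f := fun j (_ : j ≠ i) => W j) j hj) (hW.stable j g y hy)
      exact h5 hx
    have hB : ∀ x ∈ W i, ∀ y ∈ (⨆ j ≠ i, W j), V.ω x y = 0 := by
      intro x hx y hy
      have h5 : (⨆ j ≠ i, W j) ≤ LinearMap.ker (V.ω x) := by
        refine iSup₂_le fun j hj => ?_
        intro y hy
        rw [LinearMap.mem_ker]
        exact hW.orthogonal i j (Ne.symm hj) x hx y hy
      exact h5 hy
    have h4 : W i = ⊤ := by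
      rcases h1 _ _ h3 (fun g x hx => hW.stable i g x hx) hA hB with h | h
      · exact absurd h (hW.ne_bot i)
      · rw [h] at h3
        exact (sup_bot_eq (W i)).symm.trans (codisjoint_iff.1 h3.codisjoint)
    rcases hW.irreducible i H hH U (h4 ▸ le_top) hU with h | h
    · exact Or.inl h
    · exact Or.inr (h.trans h4)

end Run7.h293.SQ
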