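import Pool.Agent.TH125.Gal.Pub
import Pool.Agent.Run7.h293.SQ.Defs

/-!
# Families of varieties whose transcendental cohomology has squarefree conductor: definitions
-/

set_option autoImplicit false

universe u

namespace Run7.h293.SQ

open Module Pool.Agent.W569.FM Pool.Agent.TH125.Gal

section Alg

variable {ℓ : ℕ} {K : Type} [Field K] [TopologicalSpace K] {A : Type} [Ring A] [Algebra K A]

/-- `V` is the representation `ρ` on the stable subspace `T` of the cohomology algebra `A` with the
orientation `tr`, with the cup product form; outside `ℓ` its conductor is squarefree, nothing in it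
is unramified outside `ℓ`, the inertia at `ℓ` is connected, and `V` is indecomposable or has only
one bad prime different from `ℓ`. -/
structure IsSquarefreePart {T : Submodule K A} (V : SymplecticRep ℓ K T) (tr : A →ₗ[K] K)
    (ρ : GF ℚ →* (A ≃ₐ[K] A)) (S : Finset ℕ) : Prop where
  act : ∀ g t, (V.ρ g t : A) = ρ g t
  form : ∀ s t : T, V.ω s t = tr ((s : A) * (t : A))
  conductor : SquarefreeConductor V S
  nothing : NothingUnramified V
  connected : InertiaConnected V
  indecomposable : Indecomposable V ∨ S.card ≤ 1

/-- The representation on `T` is as in `IsSquarefreePart`. -/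
def SquarefreePart (ℓ : ℕ) (tr : A →ₗ[K] K) (T : Submodule K A)
    (ρ : GF ℚ →* (A ≃ₐ[K] A)) : Prop :=
  ∃ (V : SymplecticRep ℓ K T) (S : Finset ℕ), IsSquarefreePart V tr ρ S

/-- `n` is odd, `ρ` is a Galois action on the cohomology algebra `A` of a variety of dimension `n`, the
subspace `T` is contained in the middle degree `gr n`, and it is a part as in `IsSquarefreePart`. -/
structure SquarefreeVar (ℓ : ℕ) (χ : GF ℚ →* Kˣ) (gr : ℕ → Submodule K A) (n : ℕ) (tr : A →ₗ[K] K)
    (C : ℕ → Set A) (T : Submodule K A) (ρ : GF ℚ →* (A ≃ₐ[K] A)) : Prop where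
  odd : Odd n
  galois : IsGaloisAct χ gr n tr C ρ
  middle : T ≤ gr n
  squarefree : SquarefreePart ℓ tr T ρ

/-- An element of some inertia group at a prime different from `ℓ` acts nontrivially on `T` and
has the property `P`. -/
def OwnInertia (ℓ : ℕ) (T : Submodule K A) (ρ : GF ℚ →* (A ≃ₐ[K] A)) (P : GF ℚ → Prop) : Prop :=
  ∃ σ, AwayInertia ℓ σ ∧ (∃ t ∈ T, ρ σ t ≠ t) ∧ P σ

end Alg

/-- The character `χ` is trivial on all inertia groups at the primes different from `ℓ`. -/
def UnramifiedOutside (ℓ : ℕ) {M : Type} [Monoid M] (χ : GF ℚ →* M) : Prop :=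
  ∀ σ, AwayInertia ℓ σ → χ σ = 1

open Pool.Agent.H914 Pool.Agent.H914.VarClass Pool.Agent.H914.VarClass.Obj
  Pool.Agent.H914.WeilCohomology Pool.Agent.H281R3.HT Pool.Agent.W552

variable {k : Type u} [Field k] {𝒱 : VarClass k} {ops : CycleOps 𝒱}
  {W : WeilCohomology.{u, 0} ops} [TopologicalSpace W.K]

/-- The absolute Galois group of `ℚ` acts on the cohomology of the odd-dimensional variety `X`; its
transcendental cohomology is in the middle degree, it has squarefree conductor outside `ℓ` etc., as
in `IsSquarefreePart`, and numerical and homological equivalence coincide; the character `χ` of the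
Tate twist is unramified outside `ℓ`; and there is an element of an inertia group at a prime
different from `ℓ` which acts nontrivially on the transcendental cohomology of `X` and trivially on
the cohomology of `Z`. -/
structure SquarefreePair (ℓ : ℕ) (χ : GF ℚ →* W.Kˣ) (X Z : GVar W (GF ℚ)) : Prop where
  member : SquarefreeVar ℓ χ (W.gr X.X) X.X.dim (W.tr X.X) (algClasses W X.X)
    (transcendental W X.X) X.act
  homEqNum : HomEqNum W X.X
  twist : UnramifiedOutside ℓ χ
  own : OwnInertia ℓ (transcendental W X.X) X.act (TrivAct Z.act)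

end Run7.h293.SQ
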