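import Pool.Agent.TH125.Gal.Tower
import Pool.Agent.Run7.h293.SQ.E
import Pool.Agent.Run7.h293.SQ.F

/-!
# The Tate conjecture for towers of varieties with squarefree conductor
-/

set_option autoImplicit false
set_option linter.unusedSectionVars false

universe u

namespace Run7.h293.SQ

open Module Pool.Agent.W569.FM Pool.Agent.TH125.Gal

section Alg

variable {ℓ : ℕ} {K : Type} [Field K] [TopologicalSpace K] [T1Space K] [CharZero K] {A : Type}
  [Ring A] [Algebra K A] {T : Submodule K A} [FiniteDimensional K T] {tr : A →ₗ[K] K}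
  {ρ : GF ℚ →* (A ≃ₐ[K] A)}

theorem irredAct (h : SquarefreePart ℓ tr T ρ) : IrredAct ρ T := by
  obtain ⟨V, S, h⟩ := h
  intro H hH U hUT hU
  have hI : Indecomposable V := by
    rcases h.indecomposable with h1 | h1
    · exact h1
    · exact Run7.h293.SQ.indecomposable h.conductor h.nothing h.connected h1
  rcases irred_of_indecomposable h.conductor h.nothing h.connected hI H hH
    (U.comap T.subtype) (fun g hg x hx => by
      rw [Submodule.mem_comap, Submodule.subtype_apply] at hx ⊢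
      rw [h.act]
      exact hU g hg _ hx) with h1 | h1
  · left
    rw [eq_bot_iff]
    intro x hx
    have h2 : (⟨x, hUT hx⟩ : T) ∈ U.comap T.subtype := hx
    rw [h1, Submodule.mem_bot] at h2
    exact congrArg Subtype.val h2
  · right
    refine le_antisymm hUT fun x hx => ?_
    have h2 : (⟨x, hx⟩ : T) ∈ U.comap T.subtype := by
      rw [h1]
      exact Submodule.mem_top
    exact h2

theorem plAct (h : SquarefreePart ℓ tr T ρ) {Q : Ideal (OO ℚ)} (hQ : Q.IsMaximal)
    (hℓ : (ℓ : OO ℚ) ∉ Q) {σ : GF ℚ} (hσ : InInertia Q σ) (hne : ∃ t ∈ T, ρ σ t ≠ t) :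
    PLAct tr T ρ σ := by
  obtain ⟨V, S, h⟩ := h
  obtain ⟨t₀, ht₀, hne⟩ := hne
  obtain ⟨δ, hδ⟩ := trans h.conductor hQ hℓ
  obtain ⟨a, ha⟩ := hδ σ hσ
  have hne' : (V.ρ σ ⟨t₀, ht₀⟩ : T) ≠ ⟨t₀, ht₀⟩ := by
    intro h1
    apply hne
    have h2 := congrArg Subtype.val h1
    rw [h.act] at h2
    exact h2
  have ha0 : a ≠ 0 := by
    rintro rfl
    apply hne'
    rw [ha, zero_mul, zero_smul, add_zero]
  have hδ0 : δ ≠ 0 := by
    rintro rfl
    apply hne'
    rw [ha, smul_zero, add_zero]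
  refine ⟨δ, δ.2, fun h0 => hδ0 (Subtype.ext h0), -a, neg_ne_zero.2 ha0, fun t ht => ?_⟩
  have h1 := congrArg Subtype.val (ha ⟨t, ht⟩)
  rw [h.act] at h1
  rw [h1, neg_symm V.alternating, h.form]
  change t + (a * -(tr (↑δ * t))) • (δ : A) = _
  congr 2
  ring

end Alg

open Pool.Agent.H914 Pool.Agent.H914.VarClass Pool.Agent.H914.VarClass.Obj
  Pool.Agent.H914.WeilCohomology Pool.Agent.H281R3.HT Pool.Agent.W552

variable {k : Type u} [Field k] {𝒱 : VarClass k} {ops : CycleOps 𝒱}
  {W : WeilCohomology.{u, 0} ops} [TopologicalSpace W.K] [T1Space W.K]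

theorem tate_pair {ℓ : ℕ} {χ : GF ℚ →* W.Kˣ} {X Z : GVar W (GF ℚ)} {n : ℕ}
    (h : SquarefreePair ℓ χ X Z) {Y : GVar W (GF ℚ)} (hY : IsPowProd X n Z Y) :
    TateConjecture χ Y ↔ TateConjecture χ Z := by
  have hN : NodalFamily χ (fun _ : Unit => X) Z :=
    { galois := fun _ => h.member.galois
      homEqNum := fun _ => h.homEqNum
      middle := fun _ => h.member.middle
      irreducible := fun _ => irredAct h.member.squarefree
      node := by
        intro i
        obtain ⟨σ, ⟨Q, ⟨hQ, hℓ⟩, hσ⟩, hne, hZ⟩ := h.own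
        exact ⟨σ, plAct h.member.squarefree hQ hℓ hσ hne, h.twist σ ⟨Q, ⟨hQ, hℓ⟩, hσ⟩, hZ,
          fun j hj => absurd (Subsingleton.elim j i) hj⟩
      few := by
        rintro ⟨i, hi⟩
        exact absurd h.member.odd (Nat.not_odd_iff_even.2 hi) }
  refine tate_tower hN (GTower.step () n GTower.base (Set.notMem_empty _) (fun he => ?_) hY)
  exact absurd h.member.odd (Nat.not_odd_iff_even.2 he)

end Run7.h293.SQ
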